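import Pool.Agent.W842.FKS.Scalar

/-!
# Fractional chromatic index of multi-hypergraphs with edge sizes in an interval

If all edges have size `1` or a size in `[s, l]`, `2 ≤ s ≤ l`, then the fractional chromatic index
is at most the maximum over the vertices `v` of `∑_{e ∋ v} b(|e|)` with `b(1) = 1` and
`b(K) = K - δ`, `δ = 4 (s l - s - l) / (s + l)^2`.  For sizes within a factor `c` the gain `δ` tends
to `4 c / (1 + c)^2`, so to `1` if the sizes are asymptotically equal.

Proof.  Iterated rounding of extreme fractional matchings `x`; average over the edges with weights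
`x_e`.  With `G = (s + l)^2 / 4` the inequality `G x r ((K - 1) x - δ) + 1 ≥ K x` holds for every
edge, and the number of tight vertices is at least the number of edges.
-/

set_option autoImplicit false

namespace Pool.Agent.Results.MP_7c8b7e_co.BoundedRatio

open Finset Classical Pool.Agent.W842.FKS

/-- A fractional edge colouring: weights on the matchings that cover every edge at least once. -/
def IsFracColouring {V E : Type*} [Fintype V] [Fintype E] (H : E → Finset V)
    (w : Finset E → ℝ) : Prop :=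
  (∀ M, 0 ≤ w M) ∧ (∀ M, ¬ IsMatching H M → w M = 0) ∧
    ∀ e, 1 ≤ ∑ M, if e ∈ M then w M else 0

/-- The fractional chromatic index. -/
noncomputable def fracChromaticIndex {V E : Type*} [Fintype V] [Fintype E]
    (H : E → Finset V) : ℝ :=
  sInf {t : ℝ | ∃ w : Finset E → ℝ, IsFracColouring H w ∧ t = ∑ M, w M}

/-- The gain `4 (s l - s - l) / (s + l)^2`. -/
noncomputable def gain (s l : ℕ) : ℝ := 4 * ((s:ℝ) * l - s - l) / ((s:ℝ) + l) ^ 2

/-- `1` for `K = 1`, and `K - gain s l` otherwise. -/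
noncomputable def bS (s l K : ℕ) : ℝ := if K = 1 then 1 else (K:ℝ) - gain s l

/-- The maximum over the vertices of the sum of `bS s l |e|`. -/
noncomputable def bound {V E : Type*} [Fintype V] [Fintype E] (H : E → Finset V) (s l : ℕ) : ℝ :=
  ⨆ v : V, ∑ e, if v ∈ H e then bS s l (H e).card else 0

section
variable {V E : Type*} [Fintype V] [Fintype E]

lemma gain_nonneg {s l : ℕ} (hs : 2 ≤ s) (hl : s ≤ l) : 0 ≤ gain s l := by
  have h1 : (2:ℝ) ≤ (s:ℝ) := by exact_mod_cast hs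
  have h2 : (s:ℝ) ≤ (l:ℝ) := by exact_mod_cast hl
  unfold gain
  refine div_nonneg ?_ (sq_nonneg _)
  nlinarith [mul_nonneg (show (0:ℝ) ≤ (s:ℝ) - 2 by linarith) (show (0:ℝ) ≤ (l:ℝ) - 2 by linarith)]

lemma gain_le_one {s l : ℕ} (hs : 2 ≤ s) (hl : s ≤ l) : gain s l ≤ 1 := by
  have h1 : (2:ℝ) ≤ (s:ℝ) := by exact_mod_cast hs
  have h2 : (s:ℝ) ≤ (l:ℝ) := by exact_mod_cast hl
  unfold gain
  rw [div_le_one (by positivity)]
  nlinarith [sq_nonneg ((s:ℝ) - l)]

lemma gain_mul {s l : ℕ} (hs : 2 ≤ s) : ((s:ℝ) + l) ^ 2 / 4 * gain s l = (s:ℝ) * l - s - l := by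
  have h1 : (2:ℝ) ≤ (s:ℝ) := by exact_mod_cast hs
  have h2 : (0:ℝ) ≤ (l:ℝ) := Nat.cast_nonneg l
  have h3 : (s:ℝ) + l ≠ 0 := by positivity
  unfold gain
  field_simp

lemma bS_ge {s l K : ℕ} (hs : 2 ≤ s) (hl : s ≤ l) (hK : 1 ≤ K) : 1 ≤ bS s l K := by
  have h1 := gain_le_one hs hl
  unfold bS
  split_ifs with h
  · exact le_refl _
  · have h2 : 2 ≤ K := by omega
    have : (2:ℝ) ≤ (K:ℝ) := by exact_mod_cast h2
    linarith

/-- The inequality for one edge. -/
lemma edge_ineq {s l K : ℕ} (hs : 2 ≤ s) (hl : s ≤ l) (hK : K = 1 ∨ (s ≤ K ∧ K ≤ l)) {x : ℝ}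
    (hx1 : x ≤ 1) :
    (K:ℝ) * x ≤ ((s:ℝ) + l) ^ 2 / 4 * (x - (K:ℝ) * (x * (1 / bS s l K)) +
      ((K:ℝ) - 1) * (x * (x * (1 / bS s l K)))) + 1 := by
  have h1 : (2:ℝ) ≤ (s:ℝ) := by exact_mod_cast hs
  have h2 : (s:ℝ) ≤ (l:ℝ) := by exact_mod_cast hl
  rcases hK with rfl | ⟨hK1, hK2⟩
  · unfold bS
    simp only [if_true, Nat.cast_one]
    linarith
  · have h3 : (s:ℝ) ≤ (K:ℝ) := by exact_mod_cast hK1
    have h4 : (K:ℝ) ≤ (l:ℝ) := by exact_mod_cast hK2
    have hb : bS s l K = (K:ℝ) - gain s l := by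
      unfold bS
      rw [if_neg (by omega)]
    have hg0 := gain_nonneg hs hl
    have hg1 := gain_le_one hs hl
    have hgm := gain_mul (l := l) hs
    rw [hb]
    set δ := gain s l with hδ
    set G := ((s:ℝ) + l) ^ 2 / 4 with hG
    have hGpos : 0 < G := by rw [hG]; positivity
    have hbp : 0 < (K:ℝ) - δ := by linarith
    have hsl : (s:ℝ) * l + (K:ℝ) ^ 2 ≤ ((s:ℝ) + l) * K := by
      nlinarith [mul_nonneg (sub_nonneg.2 h3) (sub_nonneg.2 h4)]
    have hin0 : 0 ≤ G * δ + (K:ℝ) * ((K:ℝ) - δ) := by positivity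
    have hin1 : G * δ + (K:ℝ) * ((K:ℝ) - δ) ≤ ((s:ℝ) + l) * ((K:ℝ) - 1) := by
      rw [hgm]
      nlinarith [mul_nonneg (show (0:ℝ) ≤ (K:ℝ) by linarith) hg0]
    have hd : (G * δ + (K:ℝ) * ((K:ℝ) - δ)) ^ 2 ≤ 4 * (G * ((K:ℝ) - 1)) * ((K:ℝ) - δ) := by
      have h5 : (G * δ + (K:ℝ) * ((K:ℝ) - δ)) ^ 2 ≤ (((s:ℝ) + l) * ((K:ℝ) - 1)) ^ 2 :=
        pow_le_pow_left₀ hin0 hin1 2
      have h6 : (((s:ℝ) + l) * ((K:ℝ) - 1)) ^ 2 = 4 * (G * ((K:ℝ) - 1)) * ((K:ℝ) - 1) := by
        rw [hG]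
        ring
      have h7 : 4 * (G * ((K:ℝ) - 1)) * ((K:ℝ) - 1) ≤ 4 * (G * ((K:ℝ) - 1)) * ((K:ℝ) - δ) := by
        refine mul_le_mul_of_nonneg_left (by linarith) ?_
        have : 0 ≤ (K:ℝ) - 1 := by linarith
        positivity
      linarith
    have hq := quad_nonneg (x := x) (show 0 < G * ((K:ℝ) - 1) from mul_pos hGpos (by linarith)) hd
    have e1 : G * (x - (K:ℝ) * (x * (1 / ((K:ℝ) - δ))) +
        ((K:ℝ) - 1) * (x * (x * (1 / ((K:ℝ) - δ))))) + 1 - (K:ℝ) * x =
        (1 / ((K:ℝ) - δ)) * (G * ((K:ℝ) - 1) * x ^ 2 - (G * δ + (K:ℝ) * ((K:ℝ) - δ)) * x +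
          ((K:ℝ) - δ)) := by
      have hb0 := hbp.ne'
      field_simp
      ring
    have h8 := mul_nonneg (show 0 ≤ 1 / ((K:ℝ) - δ) by positivity) hq
    linarith

lemma step (H : E → Finset V) (hne : ∀ e, (H e).Nonempty) (s l : ℕ) (hs : 2 ≤ s) (hl : s ≤ l)
    (hsz : ∀ e, (H e).card = 1 ∨ (s ≤ (H e).card ∧ (H e).card ≤ l))
    (S : Finset E) (x : E → ℝ) (hS : S.Nonempty) (hpos : ∀ e ∈ S, 0 < x e)
    (hoff : ∀ e, e ∉ S → x e = 0) (hX : ∀ v, X H x v ≤ 1)
    (hinj : ∀ d : E → ℝ, (∀ e, e ∉ S → d e = 0) → (∀ v, X H x v = 1 → X H d v = 0) → d = 0) :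
    ∃ e ∈ S, ∑ f, (if Disjoint (H e) (H f) then 0 else x f * (1 / bS s l (H f).card)) ≤ 1 := by
  have hx0 : ∀ e, 0 ≤ x e := by
    intro e
    by_cases he : e ∈ S
    · exact (hpos e he).le
    · exact (hoff e he).ge
  have hc1 : ∀ e, 1 ≤ (H e).card := fun e => Finset.card_pos.2 (hne e)
  have hb1 : ∀ e, 1 ≤ bS s l (H e).card := fun e => bS_ge hs hl (hc1 e)
  have hr0 : ∀ e, 0 < 1 / bS s l (H e).card := fun e => by
    have := hb1 e
    positivity
  have hx1 : ∀ e, x e ≤ 1 := fun e => FM_le_one H hne S ⟨hx0, hoff, hX⟩ e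
  obtain ⟨e0, he0⟩ := hS
  refine exists_small H hne S x (fun e => 1 / bS s l (H e).card) x hx0 (fun e => (hr0 e).le) hx0
    hoff ⟨e0, hpos e0 he0⟩ ?_
  set z : E → ℝ := fun e => x e * (1 / bS s l (H e).card) with hz
  have hz0 : ∀ e, 0 ≤ z e := fun e => mul_nonneg (hx0 e) (hr0 e).le
  have h1 : ∑ v, X H x v * X H z v ≤ ∑ v, X H z v :=
    Finset.sum_le_sum fun v _ => mul_le_of_le_one_left (X_nonneg H hz0 v) (hX v)
  have h2 : ∑ v, X H z v = ∑ e, ((H e).card : ℝ) * z e := by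
    have := sum_swap H z (fun _ => (1:ℝ))
    simp only [mul_one, Finset.sum_const, nsmul_eq_mul] at this
    rw [← this]
    exact Finset.sum_congr rfl fun e _ => mul_comm _ _
  set h : E → ℝ := fun e => x e - ((H e).card : ℝ) * z e + (((H e).card : ℝ) - 1) * (x e * z e)
    with hh
  suffices hsum : 0 ≤ ∑ e, h e by
    have h3 : ∑ e, x e * (1 + (((H e).card : ℝ) - 1) * (x e * (1 / bS s l (H e).card))) =
        ∑ e, h e + ∑ e, ((H e).card : ℝ) * z e := by
      rw [← Finset.sum_add_distrib]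
      refine Finset.sum_congr rfl fun e _ => ?_
      simp only [hh, hz]
      ring
    rw [h3]
    linarith
  have hhoff : ∀ e, e ∉ S → h e = 0 := by
    intro e he
    simp only [hh, hz, hoff e he]
    ring
  set G : ℝ := ((s:ℝ) + l) ^ 2 / 4 with hG
  have hGpos : 0 < G := by
    have h5 : (2:ℝ) ≤ (s:ℝ) := by exact_mod_cast hs
    have h6 : (0:ℝ) ≤ (l:ℝ) := Nat.cast_nonneg l
    rw [hG]
    positivity
  -- number of edges at most number of tight vertices at most the total of the loads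
  have h7 : (S.card : ℝ) ≤ ∑ v, X H x v := by
    have h8 : ((Finset.univ.filter (fun v => X H x v = 1)).card : ℝ) ≤ ∑ v, X H x v := by
      rw [Finset.card_filter]
      push_cast
      refine Finset.sum_le_sum fun v _ => ?_
      split_ifs with hv
      · exact hv.ge
      · exact X_nonneg H hx0 v
    refine le_trans ?_ h8
    exact_mod_cast card_le_tight H S x hinj
  have h9 : ∑ v, X H x v = ∑ e ∈ S, ((H e).card : ℝ) * x e := by
    have := sum_swap H x (fun _ => (1:ℝ))
    simp only [mul_one, Finset.sum_const, nsmul_eq_mul] at this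
    rw [← this]
    symm
    rw [Finset.sum_congr rfl fun e _ => mul_comm ((H e).card : ℝ) (x e)]
    refine Finset.sum_subset (Finset.subset_univ S) fun e _ he => ?_
    rw [hoff e he, zero_mul]
  have h10 : ∑ e, h e = ∑ e ∈ S, h e := by
    symm
    exact Finset.sum_subset (Finset.subset_univ S) fun e _ he => hhoff e he
  have h11 : ∑ e ∈ S, ((H e).card : ℝ) * x e ≤ ∑ e ∈ S, (G * h e + 1) := by
    refine Finset.sum_le_sum fun e _ => ?_
    exact edge_ineq hs hl (hsz e) (hx1 e)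
  rw [Finset.sum_add_distrib, ← Finset.mul_sum, ← h10] at h11
  simp only [Finset.sum_const, nsmul_eq_mul, mul_one] at h11
  have h12 : 0 ≤ G * ∑ e, h e := by linarith
  exact nonneg_of_mul_nonneg_right h12 hGpos

lemma exists_colouring (H : E → Finset V) (hne : ∀ e, (H e).Nonempty) (s l : ℕ) (hs : 2 ≤ s)
    (hl : s ≤ l) (hsz : ∀ e, (H e).card = 1 ∨ (s ≤ (H e).card ∧ (H e).card ≤ l)) :
    ∃ w : Finset E → ℝ, IsFracColouring H w ∧ ∑ M, w M ≤ bound H s l := by
  have hb1 : ∀ e, 1 ≤ bS s l (H e).card := fun e => bS_ge hs hl (Finset.card_pos.2 (hne e))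
  have hb0 : ∀ e, 0 < bS s l (H e).card := fun e => lt_of_lt_of_le one_pos (hb1 e)
  have hWle : ∀ v, X H (fun e => bS s l (H e).card) v ≤ bound H s l :=
    fun v => le_ciSup (f := fun v : V => ∑ e, if v ∈ H e then bS s l (H e).card else 0)
      (Set.finite_range _).bddAbove v
  have hD0 : 0 ≤ bound H s l :=
    Real.iSup_nonneg fun v => X_nonneg H (z := fun e => bS s l (H e).card)
      (fun e => (hb0 e).le) v
  rcases isEmpty_or_nonempty E with hE | ⟨⟨e0⟩⟩
  · exact ⟨fun _ => 0, ⟨fun _ => le_refl _, fun _ _ => rfl, fun e => (hE.false e).elim⟩, by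
      simpa using hD0⟩
  · have hD : 0 < bound H s l := by
      obtain ⟨v, hv⟩ := hne e0
      refine lt_of_lt_of_le (hb0 e0) (le_trans ?_ (hWle v))
      have := Finset.single_le_sum (f := fun e => if v ∈ H e then bS s l (H e).card else 0)
        (fun e _ => by have := (hb0 e).le; split_ifs <;> linarith) (Finset.mem_univ e0)
      rw [if_pos hv] at this
      exact this
    set x : E → ℝ := fun e => bS s l (H e).card / bound H s l with hx
    have hxF : x ∈ FM H Finset.univ := by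
      refine ⟨fun e => div_nonneg (hb0 e).le hD.le, fun e he => absurd (Finset.mem_univ e) he,
        fun v => ?_⟩
      have h1 : X H x v = X H (fun e => bS s l (H e).card) v / bound H s l := by
        unfold X
        rw [Finset.sum_div]
        refine Finset.sum_congr rfl fun e _ => ?_
        simp only [hx]
        split_ifs
        · rfl
        · rw [zero_div]
      rw [h1, div_le_one hD]
      exact hWle v
    have hz := core H hne (fun e => 1 / bS s l (H e).card)
      (fun e => by have := hb0 e; positivity)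
      (fun S x h1 h2 h3 h4 h5 => step H hne s l hs hl hsz S x h1 h2 h3 h4 h5) Finset.univ x hxF
    obtain ⟨w, p, q, r, t⟩ := hz
    refine ⟨fun M => bound H s l * w M, ⟨fun M => mul_nonneg hD0 (p M), fun M hM => by
      simp [q M hM], fun e => ?_⟩, ?_⟩
    · have h1 := t e
      have h2 : ∑ M, (if e ∈ M then bound H s l * w M else 0) =
          bound H s l * ∑ M, if e ∈ M then w M else 0 := by
        rw [Finset.mul_sum]
        refine Finset.sum_congr rfl fun M _ => ?_
        split_ifs <;> simp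
      rw [h2, ← h1]
      simp only [hx]
      have hbe := (hb0 e).ne'
      have hDe := hD.ne'
      have : bound H s l * (bS s l (H e).card / bound H s l * (1 / bS s l (H e).card)) = 1 := by
        field_simp
      rw [this]
    · rw [← Finset.mul_sum, r, mul_one]

end

/-- **Edge sizes in an interval.** -/
theorem result (V E : Type) [Fintype V] [Fintype E] (H : E → Finset V)
    (hne : ∀ e, (H e).Nonempty) (s l : ℕ) (hs : 2 ≤ s) (hl : s ≤ l)
    (hsz : ∀ e, (H e).card = 1 ∨ (s ≤ (H e).card ∧ (H e).card ≤ l)) :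
    (∃ w : Finset E → ℝ, IsFracColouring H w ∧ ∑ M, w M ≤ bound H s l) ∧
      fracChromaticIndex H ≤ bound H s l := by
  obtain ⟨w, hw, hle⟩ := exists_colouring H hne s l hs hl hsz
  refine ⟨⟨w, hw, hle⟩, le_trans (csInf_le ⟨0, ?_⟩ ⟨w, hw, rfl⟩) hle⟩
  rintro t ⟨w', hw', rfl⟩
  exact Finset.sum_nonneg fun M _ => hw'.1 M

end Pool.Agent.Results.MP_7c8b7e_co.BoundedRatio
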