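import Pool.Agent.W842.FKS.Scalar

/-!
# The Furedi-Kahn-Seymour conjecture for edge sizes 1, k, k + 1

A multi-hypergraph is a family `H : E → Finset V` of nonempty finite sets indexed by the edge
occurrences.  If every edge has size `1`, `k` or `k + 1` (for one fixed `k ≥ 2`), then the
fractional chromatic index is at most `max_v ∑_{e ∋ v} (|e| - 1 + 1/|e|)`.

Proof.  Let `x` be an extreme point of the fractional matching polytope of a set `S` of edges, with
all `x_e > 0`; then at least `|S|` vertices are tight.  Put `z_e = x_e / (|e| - 1 + 1/|e|)`.  The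
average, with weights `x_e`, of the total `z`-weight of the closed neighbourhoods of the edges is at
most one: this is a sum over the vertices of an inequality in which a tight vertex of degree at most
`k` and a tight vertex of degree at least `k + 1` are treated with two different slopes.  So some
edge has a neighbourhood of `z`-weight at most one; it is removed and put back at the end, on the
event that it is disjoint from the random matching.
-/

set_option autoImplicit false

namespace Pool.Agent.Results.MP_7c8b7e_co.ConsecutiveSizes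

open Finset Classical Pool.Agent.W842.FKS

/-- A fractional edge colouring: weights on the matchings that cover every edge at least once. -/
def IsFracColouring {V E : Type*} [Fintype V] [Fintype E] (H : E → Finset V)
    (w : Finset E → ℝ) : Prop :=
  (∀ M, 0 ≤ w M) ∧ (∀ M, ¬ IsMatching H M → w M = 0) ∧
    ∀ e, 1 ≤ ∑ M, if e ∈ M then w M else 0

/-- The fractional chromatic index. -/
noncomputable def fracChromaticIndex {V E : Type*} [Fintype V] [Fintype E]
    (H : E → Finset V) : ℝ :=
  sInf {t : ℝ | ∃ w : Finset E → ℝ, IsFracColouring H w ∧ t = ∑ M, w M}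

/-- The right-hand side of the conjecture. -/
noncomputable def bound {V E : Type*} [Fintype V] [Fintype E] (H : E → Finset V) : ℝ :=
  ⨆ v : V, ∑ e, if v ∈ H e then ((H e).card : ℝ) - 1 + 1 / ((H e).card : ℝ) else 0

section
variable {V E : Type*} [Fintype V] [Fintype E]

lemma rr_pos {K : ℝ} (hK : 1 ≤ K) : 0 < rr K := by
  unfold rr
  have : 0 < K ^ 2 - K + 1 := by nlinarith
  positivity

lemma rr_mul {K : ℝ} (hK : 1 ≤ K) : (K - 1 + 1 / K) * rr K = 1 := by
  unfold rr
  have h1 : 0 < K ^ 2 - K + 1 := by nlinarith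
  have h2 : K ≠ 0 := by positivity
  have h3 : K - 1 + 1 / K = (K ^ 2 - K + 1) / K := by
    rw [eq_div_iff h2]
    field_simp
  rw [h3, div_mul_div_comm, mul_comm, div_self]
  exact mul_ne_zero h2 h1.ne'

lemma step (H : E → Finset V) (hne : ∀ e, (H e).Nonempty) (k : ℕ) (hk : 2 ≤ k)
    (hs : ∀ e, (H e).card = 1 ∨ (H e).card = k ∨ (H e).card = k + 1)
    (S : Finset E) (x : E → ℝ) (hS : S.Nonempty) (hpos : ∀ e ∈ S, 0 < x e)
    (hoff : ∀ e, e ∉ S → x e = 0) (hX : ∀ v, X H x v ≤ 1)
    (hinj : ∀ d : E → ℝ, (∀ e, e ∉ S → d e = 0) → (∀ v, X H x v = 1 → X H d v = 0) → d = 0) :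
    ∃ e ∈ S, ∑ f, (if Disjoint (H e) (H f) then 0 else x f * rr ((H f).card : ℝ)) ≤ 1 := by
  have hx0 : ∀ e, 0 ≤ x e := by
    intro e
    by_cases he : e ∈ S
    · exact (hpos e he).le
    · exact (hoff e he).ge
  have hc1 : ∀ e, (1:ℝ) ≤ ((H e).card : ℝ) := by
    intro e
    exact_mod_cast Finset.card_pos.2 (hne e)
  have hr0 : ∀ e, 0 ≤ rr ((H e).card : ℝ) := fun e => (rr_pos (hc1 e)).le
  obtain ⟨e0, he0⟩ := hS
  refine exists_small H hne S x (fun e => rr ((H e).card : ℝ)) x hx0 hr0 hx0 hoff
    ⟨e0, hpos e0 he0⟩ ?_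
  set z : E → ℝ := fun e => x e * rr ((H e).card : ℝ) with hz
  have hz0 : ∀ e, 0 ≤ z e := fun e => mul_nonneg (hx0 e) (hr0 e)
  -- bound the left side
  have h1 : ∑ v, X H x v * X H z v ≤ ∑ v, X H z v :=
    Finset.sum_le_sum fun v _ => mul_le_of_le_one_left (X_nonneg H hz0 v) (hX v)
  have h2 : ∑ v, X H z v = ∑ e, ((H e).card : ℝ) * z e := by
    have := sum_swap H z (fun _ => (1:ℝ))
    simp only [mul_one, Finset.sum_const, nsmul_eq_mul] at this
    rw [← this]
    exact Finset.sum_congr rfl fun e _ => mul_comm _ _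
  -- the defect of an edge
  set h : E → ℝ := fun e => x e - ((H e).card : ℝ) * z e + (((H e).card : ℝ) - 1) * (x e * z e)
    with hh
  have hhoff : ∀ e, e ∉ S → h e = 0 := by
    intro e he
    simp only [hh, hz, hoff e he]
    ring
  suffices hsum : 0 ≤ ∑ e, h e by
    have h3 : ∑ e, x e * (1 + (((H e).card : ℝ) - 1) * (x e * rr ((H e).card : ℝ))) =
        ∑ e, h e + ∑ e, ((H e).card : ℝ) * z e := by
      rw [← Finset.sum_add_distrib]
      refine Finset.sum_congr rfl fun e _ => ?_
      simp only [hh, hz]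
      ring
    rw [h3]
    linarith
  have hκ : (2:ℝ) ≤ (k:ℝ) := by exact_mod_cast hk
  set G : ℝ := (k:ℝ) ^ 3 / ((k:ℝ) - 1) with hG
  have hGpos : 0 < G := by
    have : 0 < (k:ℝ) - 1 := by linarith
    rw [hG]
    positivity
  set F : E → ℝ := fun e => if e ∈ S then Fr k ((H e).card) (x e) else 0 with hF
  have hFK : ∀ e ∈ S, ((H e).card : ℝ) * F e = G * h e + 1 := by
    intro e he
    have hc := hc1 e
    have hc' : ((H e).card : ℝ) ≠ 0 := by positivity
    simp only [hF, if_pos he, Fr]
    rw [mul_div_cancel₀ _ hc']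
  have hF0 : ∀ e, 0 ≤ F e := by
    intro e
    simp only [hF]
    split_ifs with he
    · exact vertex_nonneg S (fun e => (H e).card) x k hk (fun e _ => hs e) e he
    · exact le_refl _
  have h4 : ∑ e, ((H e).card : ℝ) * F e = ∑ v, X H F v := by
    have := sum_swap H F (fun _ => (1:ℝ))
    simp only [mul_one, Finset.sum_const, nsmul_eq_mul] at this
    rw [← this]
    exact Finset.sum_congr rfl fun e _ => mul_comm _ _
  have h5 : ∑ e, ((H e).card : ℝ) * F e = G * ∑ e, h e + S.card := by
    have h6 : ∑ e, ((H e).card : ℝ) * F e = ∑ e ∈ S, (G * h e + 1) := by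
      rw [← Finset.sum_subset (Finset.subset_univ S)]
      · exact Finset.sum_congr rfl fun e he => hFK e he
      · intro e _ he
        simp only [hF, if_neg he, mul_zero]
    have h7 : ∑ e, h e = ∑ e ∈ S, h e := by
      symm
      refine Finset.sum_subset (Finset.subset_univ S) fun e _ he => hhoff e he
    rw [h6, h7, Finset.sum_add_distrib, ← Finset.mul_sum]
    simp
  have h8 : ((Finset.univ.filter (fun v => X H x v = 1)).card : ℝ) ≤ ∑ v, X H F v := by
    rw [Finset.card_filter]
    push_cast
    refine Finset.sum_le_sum fun v _ => ?_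
    split_ifs with hv
    · have h9 : ∀ g : E → ℝ, (∀ e, e ∉ S → g e = 0) →
          X H g v = ∑ e ∈ S.filter (fun e => v ∈ H e), g e := by
        intro g hg
        unfold X
        rw [Finset.sum_filter]
        symm
        refine Finset.sum_subset (Finset.subset_univ S) fun e _ he => ?_
        rw [hg e he]
        split_ifs <;> rfl
      rw [h9 F (fun e he => by simp only [hF, if_neg he])]
      have hx1 : ∑ e ∈ S.filter (fun e => v ∈ H e), x e = 1 := by
        rw [← h9 x hoff]
        exact hv
      refine le_trans (vertex_sum (S.filter (fun e => v ∈ H e)) (fun e => (H e).card) x k hk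
        (fun e _ => hs e) hx1) (le_of_eq ?_)
      refine Finset.sum_congr rfl fun e he => ?_
      simp only [hF, if_pos (Finset.mem_filter.1 he).1]
    · exact X_nonneg H hF0 v
  have h10 : (S.card : ℝ) ≤ ((Finset.univ.filter (fun v => X H x v = 1)).card : ℝ) := by
    exact_mod_cast card_le_tight H S x hinj
  have h11 : 0 ≤ G * ∑ e, h e := by linarith
  exact nonneg_of_mul_nonneg_right h11 hGpos

lemma exists_colouring (H : E → Finset V) (hne : ∀ e, (H e).Nonempty) (k : ℕ) (hk : 2 ≤ k)
    (hs : ∀ e, (H e).card = 1 ∨ (H e).card = k ∨ (H e).card = k + 1) :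
    ∃ w : Finset E → ℝ, IsFracColouring H w ∧ ∑ M, w M ≤ bound H := by
  have hc1 : ∀ e, (1:ℝ) ≤ ((H e).card : ℝ) := by
    intro e
    exact_mod_cast Finset.card_pos.2 (hne e)
  have hb0 : ∀ e, 0 < ((H e).card : ℝ) - 1 + 1 / ((H e).card : ℝ) := by
    intro e
    have := hc1 e
    have : 0 < 1 / ((H e).card : ℝ) := by positivity
    linarith
  have hWle : ∀ v, X H (fun e => ((H e).card : ℝ) - 1 + 1 / ((H e).card : ℝ)) v ≤ bound H :=
    fun v => le_ciSup (f := fun v : V => ∑ e, if v ∈ H e then
      ((H e).card : ℝ) - 1 + 1 / ((H e).card : ℝ) else 0) (Set.finite_range _).bddAbove v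
  have hD0 : 0 ≤ bound H :=
    Real.iSup_nonneg fun v => X_nonneg H (fun e => (hb0 e).le) v
  rcases isEmpty_or_nonempty E with hE | ⟨⟨e0⟩⟩
  · exact ⟨fun _ => 0, ⟨fun _ => le_refl _, fun _ _ => rfl, fun e => (hE.false e).elim⟩, by
      simpa using hD0⟩
  · have hD : 0 < bound H := by
      obtain ⟨v, hv⟩ := hne e0
      refine lt_of_lt_of_le (hb0 e0) (le_trans ?_ (hWle v))
      have := Finset.single_le_sum (f := fun e => if v ∈ H e then
        ((H e).card : ℝ) - 1 + 1 / ((H e).card : ℝ) else 0)
        (fun e _ => by have := (hb0 e).le; split_ifs <;> linarith) (Finset.mem_univ e0)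
      rw [if_pos hv] at this
      exact this
    set x : E → ℝ := fun e => (((H e).card : ℝ) - 1 + 1 / ((H e).card : ℝ)) / bound H with hx
    have hxF : x ∈ FM H Finset.univ := by
      refine ⟨fun e => div_nonneg (hb0 e).le hD.le, fun e he => absurd (Finset.mem_univ e) he,
        fun v => ?_⟩
      have h1 : X H x v = X H (fun e => ((H e).card : ℝ) - 1 + 1 / ((H e).card : ℝ)) v /
          bound H := by
        unfold X
        rw [Finset.sum_div]
        refine Finset.sum_congr rfl fun e _ => ?_
        simp only [hx]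
        split_ifs
        · rfl
        · rw [zero_div]
      rw [h1, div_le_one hD]
      exact hWle v
    have hz := core H hne (fun e => rr ((H e).card : ℝ)) (fun e => (rr_pos (hc1 e)).le)
      (fun S x h1 h2 h3 h4 h5 => step H hne k hk hs S x h1 h2 h3 h4 h5) Finset.univ x hxF
    obtain ⟨w, p, q, r, s⟩ := hz
    refine ⟨fun M => bound H * w M, ⟨fun M => mul_nonneg hD0 (p M), fun M hM => by
      simp [q M hM], fun e => ?_⟩, ?_⟩
    · have h1 := s e
      have h2 : ∑ M, (if e ∈ M then bound H * w M else 0) =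
          bound H * ∑ M, if e ∈ M then w M else 0 := by
        rw [Finset.mul_sum]
        refine Finset.sum_congr rfl fun M _ => ?_
        split_ifs <;> simp
      rw [h2, ← h1]
      simp only [hx]
      rw [div_mul_eq_mul_div, rr_mul (hc1 e), mul_one_div, div_self hD.ne']
    · rw [← Finset.mul_sum, r, mul_one]

end

/-- **Furedi-Kahn-Seymour conjecture for edge sizes `1`, `k`, `k + 1`.** -/
theorem result (V E : Type) [Fintype V] [Fintype E] (H : E → Finset V)
    (hne : ∀ e, (H e).Nonempty) (k : ℕ) (hk : 2 ≤ k)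
    (hs : ∀ e, (H e).card = 1 ∨ (H e).card = k ∨ (H e).card = k + 1) :
    (∃ w : Finset E → ℝ, IsFracColouring H w ∧ ∑ M, w M ≤ bound H) ∧
      fracChromaticIndex H ≤ bound H := by
  obtain ⟨w, hw, hle⟩ := exists_colouring H hne k hk hs
  refine ⟨⟨w, hw, hle⟩, le_trans (csInf_le ⟨0, ?_⟩ ⟨w, hw, rfl⟩) hle⟩
  rintro t ⟨w', hw', rfl⟩
  exact Finset.sum_nonneg fun M _ => hw'.1 M

end Pool.Agent.Results.MP_7c8b7e_co.ConsecutiveSizes
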