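import Pool.Agent.W842.FKS.Const

/-!
# Fractional chromatic index at most `max_v ∑ (|e| - 1/5)` for all multi-hypergraphs

For every multi-hypergraph the fractional chromatic index is at most the maximum over the vertices
`v` of `∑_{e ∋ v} b(|e|)` with `b(1) = 1` and `b(K) = K - 1/5` for `K ≥ 2`.

Proof.  Let `x` be an extreme point of the fractional matching polytope of a set `S` of edges, with
all `x_e > 0`.  By Hall's theorem the edges have distinct tight vertices as representatives.  Put
`z_e = x_e / b(|e|)` and `μ_e = (1/20) b^{-3} min (1, 8 b x_e)`.  At a vertex `v` represented by an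
edge `a` the inequality `(∑ z_e)^2 + μ_a ≤ ∑ (shares of z_e (1 + (|e|-1) z_e) + μ_e)` holds; the
mixture of small and large edges is paid by the variance of `1/b`.  Summing over the vertices, the
average with weights `z_e` of the `z`-weight of the closed neighbourhoods is at most one.
-/

set_option autoImplicit false

namespace Pool.Agent.Results.MP_7c8b7e_co.ConstantGain

open Finset Classical Pool.Agent.W842.FKS

/-- A fractional edge colouring: weights on the matchings that cover every edge at least once. -/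
def IsFracColouring {V E : Type*} [Fintype V] [Fintype E] (H : E → Finset V)
    (w : Finset E → ℝ) : Prop :=
  (∀ M, 0 ≤ w M) ∧ (∀ M, ¬ IsMatching H M → w M = 0) ∧
    ∀ e, 1 ≤ ∑ M, if e ∈ M then w M else 0

/-- The fractional chromatic index. -/
noncomputable def fracChromaticIndex {V E : Type*} [Fintype V] [Fintype E]
    (H : E → Finset V) : ℝ :=
  sInf {t : ℝ | ∃ w : Finset E → ℝ, IsFracColouring H w ∧ t = ∑ M, w M}

/-- The maximum over the vertices of the sum of `|e| - 1/5` (of `1` if `|e| = 1`). -/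
noncomputable def bound {V E : Type*} [Fintype V] [Fintype E] (H : E → Finset V) : ℝ :=
  ⨆ v : V, ∑ e, if v ∈ H e then
    (if (H e).card = 1 then (1:ℝ) else ((H e).card : ℝ) - 1 / 5) else 0

section
variable {V E : Type*} [Fintype V] [Fintype E]

/-- Distinct tight representatives. -/
lemma sdr (H : E → Finset V) (S : Finset E) (x : E → ℝ)
    (hinj : ∀ d : E → ℝ, (∀ e, e ∉ S → d e = 0) → (∀ v, X H x v = 1 → X H d v = 0) → d = 0) :
    ∃ φ : S → V, Function.Injective φ ∧ ∀ e : S, φ e ∈ H e ∧ X H x (φ e) = 1 := by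
  have h := (Finset.all_card_le_biUnion_card_iff_exists_injective
    (fun e : S => (H e).filter (fun v => X H x v = 1))).1 ?_
  · obtain ⟨φ, hφ, hφ2⟩ := h
    exact ⟨φ, hφ, fun e => Finset.mem_filter.1 (hφ2 e)⟩
  · intro A
    have h1 := hall_tight H S x hinj (A.map (Function.Embedding.subtype _)) (by
      intro e he
      rw [Finset.mem_map] at he
      obtain ⟨f, _, rfl⟩ := he
      exact f.2)
    rw [Finset.card_map] at h1
    refine le_trans h1 (Finset.card_le_card ?_)
    intro v hv
    rw [Finset.mem_filter] at hv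
    obtain ⟨_, hv1, e, he, hve⟩ := hv
    rw [Finset.mem_map] at he
    obtain ⟨f, hf, rfl⟩ := he
    rw [Finset.mem_biUnion]
    exact ⟨f, hf, Finset.mem_filter.2 ⟨hve, hv1⟩⟩

lemma step (H : E → Finset V) (hne : ∀ e, (H e).Nonempty)
    (S : Finset E) (x : E → ℝ) (hS : S.Nonempty) (hpos : ∀ e ∈ S, 0 < x e)
    (hoff : ∀ e, e ∉ S → x e = 0) (hX : ∀ v, X H x v ≤ 1)
    (hinj : ∀ d : E → ℝ, (∀ e, e ∉ S → d e = 0) → (∀ v, X H x v = 1 → X H d v = 0) → d = 0) :
    ∃ e ∈ S, ∑ f, (if Disjoint (H e) (H f) then 0 else x f * (1 / bb (H f).card)) ≤ 1 := by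
  have hx0 : ∀ e, 0 ≤ x e := by
    intro e
    by_cases he : e ∈ S
    · exact (hpos e he).le
    · exact (hoff e he).ge
  have hc1 : ∀ e, 1 ≤ (H e).card := fun e => Finset.card_pos.2 (hne e)
  have hb1 : ∀ e, 1 ≤ bb (H e).card := fun e => bb_ge (hc1 e)
  have hr0 : ∀ e, 0 < 1 / bb (H e).card := fun e => by
    have := hb1 e
    positivity
  have hx1 : ∀ e, x e ≤ 1 := fun e => FM_le_one H hne S ⟨hx0, hoff, hX⟩ e
  set z : E → ℝ := fun e => x e * (1 / bb (H e).card) with hz
  have hz0 : ∀ e, 0 ≤ z e := fun e => mul_nonneg (hx0 e) (hr0 e).le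
  obtain ⟨e0, he0⟩ := hS
  refine exists_small H hne S x (fun e => 1 / bb (H e).card) z hx0 (fun e => (hr0 e).le) hz0
    (fun e he => by simp only [hz, hoff e he, zero_mul])
    ⟨e0, mul_pos (hpos e0 he0) (hr0 e0)⟩ ?_
  set L : E → ℝ := fun e => if e ∈ S then
    x e * (1 / bb (H e).card) ^ 2 + TT (H e).card (x e) else 0 with hL
  have hoffX : ∀ (g : E → ℝ) (v : V), (∀ e, e ∉ S → g e = 0) →
      X H g v = ∑ e ∈ S.filter (fun e => v ∈ H e), g e := by
    intro g v hg
    unfold X
    rw [Finset.sum_filter]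
    symm
    refine Finset.sum_subset (Finset.subset_univ S) fun e _ he => ?_
    rw [hg e he]
    split_ifs <;> rfl
  have hzX : ∀ v, X H z v = ∑ e ∈ S.filter (fun e => v ∈ H e), x e * (1 / bb (H e).card) :=
    fun v => hoffX z v (fun e he => by simp only [hz, hoff e he, zero_mul])
  have hxX : ∀ v, X H x v = ∑ e ∈ S.filter (fun e => v ∈ H e), x e := fun v => hoffX x v hoff
  have hLX : ∀ v, X H L v = ∑ e ∈ S.filter (fun e => v ∈ H e),
      (x e * (1 / bb (H e).card) ^ 2 + TT (H e).card (x e)) := by
    intro v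
    rw [hoffX L v (fun e he => by simp only [hL, if_neg he])]
    refine Finset.sum_congr rfl fun e he => ?_
    simp only [hL, if_pos (Finset.mem_filter.1 he).1]
  have hv0 : ∀ v, 0 ≤ X H L v - X H z v ^ 2 := by
    intro v
    rw [hLX, hzX]
    have := vert_nonneg (S.filter (fun e => v ∈ H e)) (fun e => (H e).card) x
      (fun e _ => hc1 e) (fun e _ => hx0 e) (fun e _ => hx1 e) (by rw [← hxX]; exact hX v)
    linarith
  obtain ⟨φ, hφ, hφ2⟩ := sdr H S x hinj
  have hv1 : ∀ e : S, mu (H e).card (x e) ≤ X H L (φ e) - X H z (φ e) ^ 2 := by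
    intro e
    rw [hLX, hzX]
    have := vert_tight (S.filter (fun f => φ e ∈ H f)) (fun f => (H f).card) x
      (fun f _ => hc1 f) (fun f _ => hx0 f) (fun f _ => hx1 f)
      (by rw [← hxX]; exact (hφ2 e).2) e (Finset.mem_filter.2 ⟨e.2, (hφ2 e).1⟩)
    linarith
  have hsum : ∑ e ∈ S, mu (H e).card (x e) ≤ ∑ v, (X H L v - X H z v ^ 2) := by
    rw [← Finset.sum_coe_sort S]
    refine le_trans (Finset.sum_le_sum fun e _ => hv1 e) ?_
    have h1 := Finset.sum_map (Finset.univ : Finset S) ⟨φ, hφ⟩
      (fun v => X H L v - X H z v ^ 2)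
    simp only [Function.Embedding.coeFn_mk] at h1
    rw [← h1]
    exact Finset.sum_le_sum_of_subset_of_nonneg (Finset.subset_univ _) fun v _ _ => hv0 v
  have hKL : ∀ e ∈ S, L e * ((H e).card : ℝ) =
      z e * (1 + (((H e).card : ℝ) - 1) * (x e * (1 / bb (H e).card))) +
        mu (H e).card (x e) := by
    intro e he
    have hc : ((H e).card : ℝ) ≠ 0 := by
      have := hc1 e
      positivity
    have hb : bb (H e).card ≠ 0 := by
      have := hb1 e
      positivity
    simp only [hL, if_pos he, TT, hz]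
    obtain ⟨q, hq⟩ : ∃ q, q = mu (H e).card (x e) := ⟨_, rfl⟩
    rw [← hq]
    field_simp
    ring
  have h4 : ∑ e, L e * ((H e).card : ℝ) = ∑ v, X H L v := by
    have := sum_swap H L (fun _ => (1:ℝ))
    simpa only [mul_one, Finset.sum_const, nsmul_eq_mul] using this
  have h5 : ∑ e, L e * ((H e).card : ℝ) =
      ∑ e, z e * (1 + (((H e).card : ℝ) - 1) * (x e * (1 / bb (H e).card))) +
        ∑ e ∈ S, mu (H e).card (x e) := by
    have h6 : ∑ e, L e * ((H e).card : ℝ) = ∑ e ∈ S, L e * ((H e).card : ℝ) := by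
      symm
      refine Finset.sum_subset (Finset.subset_univ S) fun e _ he => ?_
      simp only [hL, if_neg he, zero_mul]
    have h7 : ∑ e, z e * (1 + (((H e).card : ℝ) - 1) * (x e * (1 / bb (H e).card))) =
        ∑ e ∈ S, z e * (1 + (((H e).card : ℝ) - 1) * (x e * (1 / bb (H e).card))) := by
      symm
      refine Finset.sum_subset (Finset.subset_univ S) fun e _ he => ?_
      simp only [hz, hoff e he, zero_mul]
    rw [h6, h7, ← Finset.sum_add_distrib]
    exact Finset.sum_congr rfl fun e he => hKL e he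
  rw [Finset.sum_sub_distrib] at hsum
  have h8 : ∑ v, X H z v * X H (fun f => x f * (1 / bb (H f).card)) v =
      ∑ v, X H z v ^ 2 := Finset.sum_congr rfl fun v _ => by rw [sq]
  rw [h8]
  linarith

lemma exists_colouring (H : E → Finset V) (hne : ∀ e, (H e).Nonempty) :
    ∃ w : Finset E → ℝ, IsFracColouring H w ∧ ∑ M, w M ≤ bound H := by
  have hb1 : ∀ e, 1 ≤ bb (H e).card := fun e => bb_ge (Finset.card_pos.2 (hne e))
  have hb0 : ∀ e, 0 < bb (H e).card := fun e => lt_of_lt_of_le one_pos (hb1 e)
  have hWle : ∀ v, X H (fun e => bb (H e).card) v ≤ bound H :=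
    fun v => le_ciSup (f := fun v : V => ∑ e, if v ∈ H e then
      (if (H e).card = 1 then (1:ℝ) else ((H e).card : ℝ) - 1 / 5) else 0)
      (Set.finite_range _).bddAbove v
  have hD0 : 0 ≤ bound H :=
    Real.iSup_nonneg fun v => X_nonneg H (z := fun e => bb (H e).card) (fun e => (hb0 e).le) v
  rcases isEmpty_or_nonempty E with hE | ⟨⟨e0⟩⟩
  · exact ⟨fun _ => 0, ⟨fun _ => le_refl _, fun _ _ => rfl, fun e => (hE.false e).elim⟩, by
      simpa using hD0⟩
  · have hD : 0 < bound H := by
      obtain ⟨v, hv⟩ := hne e0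
      refine lt_of_lt_of_le (hb0 e0) (le_trans ?_ (hWle v))
      have := Finset.single_le_sum (f := fun e => if v ∈ H e then bb (H e).card else 0)
        (fun e _ => by have := (hb0 e).le; split_ifs <;> linarith) (Finset.mem_univ e0)
      rw [if_pos hv] at this
      exact this
    set x : E → ℝ := fun e => bb (H e).card / bound H with hx
    have hxF : x ∈ FM H Finset.univ := by
      refine ⟨fun e => div_nonneg (hb0 e).le hD.le, fun e he => absurd (Finset.mem_univ e) he,
        fun v => ?_⟩
      have h1 : X H x v = X H (fun e => bb (H e).card) v / bound H := by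
        unfold X
        rw [Finset.sum_div]
        refine Finset.sum_congr rfl fun e _ => ?_
        simp only [hx]
        split_ifs
        · rfl
        · rw [zero_div]
      rw [h1, div_le_one hD]
      exact hWle v
    have hz := core H hne (fun e => 1 / bb (H e).card) (fun e => by have := hb0 e; positivity)
      (fun S x h1 h2 h3 h4 h5 => step H hne S x h1 h2 h3 h4 h5) Finset.univ x hxF
    obtain ⟨w, p, q, r, s⟩ := hz
    refine ⟨fun M => bound H * w M, ⟨fun M => mul_nonneg hD0 (p M), fun M hM => by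
      simp [q M hM], fun e => ?_⟩, ?_⟩
    · have h1 := s e
      have h2 : ∑ M, (if e ∈ M then bound H * w M else 0) =
          bound H * ∑ M, if e ∈ M then w M else 0 := by
        rw [Finset.mul_sum]
        refine Finset.sum_congr rfl fun M _ => ?_
        split_ifs <;> simp
      rw [h2, ← h1]
      simp only [hx]
      have hbe := (hb0 e).ne'
      have hDe := hD.ne'
      have : bound H * (bb (H e).card / bound H * (1 / bb (H e).card)) = 1 := by
        field_simp
      rw [this]
    · rw [← Finset.mul_sum, r, mul_one]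

end

/-- **Constant gain for all multi-hypergraphs.** -/
theorem result (V E : Type) [Fintype V] [Fintype E] (H : E → Finset V)
    (hne : ∀ e, (H e).Nonempty) :
    (∃ w : Finset E → ℝ, IsFracColouring H w ∧ ∑ M, w M ≤ bound H) ∧
      fracChromaticIndex H ≤ bound H := by
  obtain ⟨w, hw, hle⟩ := exists_colouring H hne
  refine ⟨⟨w, hw, hle⟩, le_trans (csInf_le ⟨0, ?_⟩ ⟨w, hw, rfl⟩) hle⟩
  rintro t ⟨w', hw', rfl⟩
  exact Finset.sum_nonneg fun M _ => hw'.1 M

end Pool.Agent.Results.MP_7c8b7e_co.ConstantGain
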